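import Pool.Agent.Lib.MP_c534e4_co.Rigidity
import Pool.Agent.Lib.MP_c534e4_co.PartII
import Pool.Agent.Lib.MP_c534e4_co.Ext

/-! The Kahn–Saks theorem with weaker hypotheses: one element incomparable to many others, or two
incomparable elements at large mean distance (helper9, on top of the proof of helper26). -/

set_option autoImplicit false

namespace KS

open MeasureTheory Set ProbabilityTheory
open scoped ENNReal

/-- mean distance of two elements over the linear extensions -/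
noncomputable def avgDist {α : Type} [Fintype α] [PartialOrder α] (a b : α) : ℝ :=
  (Fintype.card (LinExt α) : ℝ)⁻¹ * ∑ σ : LinExt α, |((σ.1 a : ℕ) : ℝ) - ((σ.1 b : ℕ) : ℝ)|

theorem d_ks_eq {Q : Type} [Fintype Q] [PartialOrder Q] (x y : Q) :
    d (ks Q) x y = avgDist x y := by
  rw [d_ks]
  unfold avgDist
  congr 1
  apply Finset.sum_congr rfl
  intro σ _
  have key : ∀ a b : Q, σ.1 b ≤ σ.1 a → ∫ g, |D a b (conf σ.1 g)| ∂(gl (Fintype.card Q)) =
      ((σ.1 a : ℕ) : ℝ) - ((σ.1 b : ℕ) : ℝ) := by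
    intro a b hab
    rw [← conf_mean]
    apply integral_congr_ae
    filter_upwards [ae_gap_pos (Fintype.card Q)] with g hg
    rw [abs_of_nonneg]
    rw [D_conf_of_le σ.1 g hab]
    exact Finset.sum_nonneg fun i _ => (hg i).le
  rcases le_total (σ.1 y) (σ.1 x) with hle | hle
  · rw [key x y hle, abs_of_nonneg]
    have : ((σ.1 y : ℕ) : ℝ) ≤ ((σ.1 x : ℕ) : ℝ) := by exact_mod_cast Fin.le_def.1 hle
    linarith
  · have h4 : ∀ g, |D x y (conf σ.1 g)| = |D y x (conf σ.1 g)| := by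
      intro g
      unfold D
      exact abs_sub_comm _ _
    simp_rw [h4]
    rw [key y x hle, abs_sub_comm, abs_of_nonneg]
    have : ((σ.1 x : ℕ) : ℝ) ≤ ((σ.1 y : ℕ) : ℝ) := by exact_mod_cast Fin.le_def.1 hle
    linarith

theorem avgDist_mid {n : ℕ} {α : Type} [Fintype α] [PartialOrder α] (a b : α) :
    avgDist (Ex.mid a : Ex n α) (Ex.mid b) = avgDist a b := by
  classical
  unfold avgDist
  have hb : Function.Bijective (Ex.restr : LinExt (Ex n α) → LinExt α) :=
    ⟨Ex.restr_injective, Ex.restr_surjective⟩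
  have hc : Fintype.card (LinExt (Ex n α)) = Fintype.card (LinExt α) :=
    Fintype.card_of_bijective hb
  rw [hc]
  congr 1
  apply Fintype.sum_bijective _ hb
  intro σ
  have h1 := Ex.restr_val σ a
  have h2 := Ex.restr_val σ b
  have h3 := Ex.pos_mid_ge σ a
  have h4 := Ex.pos_mid_ge σ b
  rw [h1, h2, Nat.cast_sub h3, Nat.cast_sub h4]
  congr 1
  ring

theorem exists_ext_avg (α : Type) [Fintype α] [PartialOrder α] (K : ℝ)
    (hK : 4 * ((Fintype.card α : ℝ) + 2) ≤ K) :
    ∃ (Q : Type) (_ : Fintype Q) (_ : PartialOrder Q) (_ : BoundedOrder Q) (ι : α → Q)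
      (core : Finset Q), (∀ a b, ι a ≤ ι b ↔ a ≤ b) ∧
      (∀ x y : Q, x ≤ y ∨ y ≤ x ∨ ∃ a b, x = ι a ∧ y = ι b) ∧
      (∀ a b : α, (ks Q).real {S | S (ι a) < S (ι b)} *
        (Nat.card {σ : α ≃ Fin (Fintype.card α) // StrictMono ⇑σ} : ℝ) =
        (Nat.card {σ : α ≃ Fin (Fintype.card α) // StrictMono ⇑σ ∧ σ a < σ b} : ℝ)) ∧
      Core (ks Q) core K ∧
      (∀ x ∈ core, ∀ y ∈ core, d (ks Q) x y ≤ Fintype.card α + 1) ∧
      (∀ a b : α, d (ks Q) (ι a) (ι b) = avgDist a b) := by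
  obtain ⟨n, hn⟩ : ∃ n : ℕ, n = ⌈K⌉₊ + 1 := ⟨_, rfl⟩
  have hm0 : (0 : ℝ) ≤ Fintype.card α := Nat.cast_nonneg _
  have hnK : K ≤ (n : ℝ) - 1 := by
    rw [hn]
    push_cast
    have := Nat.le_ceil K
    linarith
  have hI : IsKS (ks (Ex n α)) := isKS_ks
  refine ⟨Ex n α, inferInstance, inferInstance, inferInstance, Ex.mid, Ex.core n α,
    fun a b => Ex.mid_le_mid a b, Ex.total_or, ?_, ?_,
    fun x hx y hy => Ex.d_core x y hx hy, fun a b => by rw [d_ks_eq, avgDist_mid]⟩
  · intro a b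
    have h := ks_lt (Q := Ex n α) (Ex.mid a) (Ex.mid b)
    rw [Ex.natCard_all, Ex.natCard_lt] at h
    exact h
  · refine ⟨⟨_, Ex.lo_mem_core⟩, fun z hz => (Ex.deep_core z hz).mono hnK, Ex.tame, ?_, ?_⟩
    · intro z hz
      cases z with
      | lo i =>
        right
        have hi : (i : ℕ) ≠ n := by
          intro h
          apply hz
          have : i = Fin.last n := Fin.ext (by simpa using h)
          rw [this]
          exact Ex.lo_mem_core
        have hi2 : (i : ℕ) + 1 < n + 1 := by omega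
        have h1 := (Ex.lo_chain (α := α) 1 i ⟨i + 1, hi2⟩ rfl).1
        refine ⟨Ex.lo ⟨i + 1, hi2⟩, ?_, ?_⟩
        · rw [h1]; norm_num
        · rw [h1]; norm_num
      | mid a => exact absurd (Ex.mid_mem_core a) hz
      | hi j =>
        by_cases hj : (j : ℕ) = n
        · left
          intro y
          apply ks_M_nonpos
          have : j = Fin.last n := Fin.ext (by simpa using hj)
          rw [this, ← Ex.top_eq]
          exact le_top
        · right
          have hj2 : (j : ℕ) + 1 < n + 1 := by omega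
          have h1 := (Ex.hi_chain (α := α) 1 j ⟨j + 1, hj2⟩ rfl).1
          refine ⟨Ex.hi ⟨j + 1, hj2⟩, ?_, ?_⟩
          · rw [h1]; norm_num
          · rw [h1]; norm_num
    · intro z hz
      right
      by_cases h0 : z = Ex.hi 0
      · have hj2 : ((0 : Fin (n + 1)) : ℕ) + 1 < n + 1 := by simp; omega
        have h1 := (Ex.hi_chain (α := α) 1 0 ⟨((0 : Fin (n + 1)) : ℕ) + 1, hj2⟩ rfl).1
        refine ⟨Ex.hi ⟨((0 : Fin (n + 1)) : ℕ) + 1, hj2⟩, ?_, ?_⟩
        · rw [h0, h1]; norm_num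
        · rw [h0, h1]
          push_cast
          linarith
      · have hz2 := (Ex.mem_core z).mp hz
        have hlt : z < Ex.hi 0 := lt_of_le_of_ne hz2.2 h0
        refine ⟨Ex.hi 0, ?_, ?_⟩
        · rw [ks_M_eq_d hlt]
          have := hI.d_ge (Ex.hi 0) z (ne_of_gt hlt)
          linarith
        · rw [ks_M_eq_d hlt]
          have := Ex.d_core (Ex.hi 0) z Ex.hi_mem_core hz
          linarith

/-- One element incomparable to at least `W` others, or two incomparable elements at mean distance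
at least `W`, already force an almost balanced pair. -/
theorem far_pair (ε : ℝ) (hε : 0 < ε) : ∃ W : ℕ, ∀ (α : Type) [Fintype α] [PartialOrder α],
      ((∃ (x : α) (s : Finset α), (∀ y ∈ s, ¬ x ≤ y ∧ ¬ y ≤ x) ∧ W ≤ s.card) ∨
        ∃ x y : α, ¬ x ≤ y ∧ ¬ y ≤ x ∧ (W : ℝ) ≤ avgDist x y) →
      ∃ x y : α,
        (1 / 2 - ε) * ((Nat.card {σ : α ≃ Fin (Fintype.card α) // StrictMono ⇑σ} : ℕ) : ℝ)
          ≤ ((Nat.card {σ : α ≃ Fin (Fintype.card α) // StrictMono ⇑σ ∧ σ x < σ y} : ℕ) : ℝ) ∧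
        (1 / 2 - ε) * ((Nat.card {σ : α ≃ Fin (Fintype.card α) // StrictMono ⇑σ} : ℕ) : ℝ)
          ≤ ((Nat.card {σ : α ≃ Fin (Fintype.card α) // StrictMono ⇑σ ∧ σ y < σ x} : ℕ) : ℝ) := by
  classical
  obtain ⟨ε', hε', hε'1, hε'2⟩ : ∃ ε' : ℝ, 0 < ε' ∧ ε' ≤ ε ∧ ε' ≤ 1 / 2 :=
    ⟨min ε (1 / 2), lt_min hε (by norm_num), min_le_left _ _, min_le_right _ _⟩
  obtain ⟨C, R, hC, hR, hrig⟩ := rigidity ε' hε'
  obtain ⟨Λ, hΛ⟩ := partII C hC
  set Λ' : ℝ := max Λ 1 with hΛ'
  have hΛ'1 : 1 ≤ Λ' := le_max_right _ _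
  set r : ℝ := Λ' + Real.sqrt (C * (1 + Λ')) with hr
  have hr0 : 0 ≤ r := by positivity
  refine ⟨⌈20 * (r + 1)⌉₊ + 1, ?_⟩
  intro α _ _ hyp
  by_contra hcon
  push Not at hcon
  set N : ℝ := ((Nat.card {σ : α ≃ Fin (Fintype.card α) // StrictMono ⇑σ} : ℕ) : ℝ) with hN
  obtain ⟨Q, iF, iP, iB, ι, core, hι, hcmp, hprob, hcore, hdiam, hdist⟩ :=
    exists_ext_avg α (max (4 * ((Fintype.card α : ℝ) + 2)) (R * (Fintype.card α + 1))) (le_max_left _ _)
  have hιinj : Function.Injective ι := by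
    intro a b hab
    exact le_antisymm ((hι a b).1 hab.le) ((hι b a).1 hab.ge)
  have hks : IsKS (ks Q) := isKS_ks
  have := hks.prob
  -- sum of the two probabilities
  have hsum : ∀ x y : Q, x ≠ y → 1 ≤ (ks Q).real {S | S x < S y} + (ks Q).real {S | S y < S x} := by
    intro x y hxy
    refine le_trans ?_ (measureReal_union_le _ _)
    have h1 : ∀ᵐ S ∂(ks Q), S ∈ {S : Q → ℝ | S x < S y} ∪ {S | S y < S x} := by
      filter_upwards [ks_injective (Q := Q)] with S hS
      rcases lt_trichotomy (S x) (S y) with h | h | h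
      · exact Or.inl h
      · exact absurd (hS h) hxy
      · exact Or.inr h
    have h2 : (ks Q) ({S : Q → ℝ | S x < S y} ∪ {S | S y < S x}) = 1 := by
      have h3 : ({S : Q → ℝ | S x < S y} ∪ {S | S y < S x} : Set (Q → ℝ)) =ᵐ[ks Q] Set.univ :=
        Filter.eventuallyEq_univ.2 h1
      rw [measure_congr h3, measure_univ]
    rw [measureReal_def, h2]
    simp
  have hlt1 : ∀ x y : Q, x < y → (ks Q).real {S | S x < S y} = 1 := by
    intro x y hxy
    have h1 : ∀ᵐ S ∂(ks Q), S ∈ {S : Q → ℝ | S x < S y} := by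
      filter_upwards [ks_strictMono (Q := Q)] with S hS
      exact hS hxy
    have h2 : (ks Q) {S : Q → ℝ | S x < S y} = 1 := by
      have h3 : ({S : Q → ℝ | S x < S y} : Set (Q → ℝ)) =ᵐ[ks Q] Set.univ :=
        Filter.eventuallyEq_univ.2 h1
      rw [measure_congr h3, measure_univ]
    rw [measureReal_def, h2]
    simp
  have hbad : EpsBad (ks Q) ε' := by
    intro x y hxy
    rcases hcmp x y with h | h | ⟨a, b, rfl, rfl⟩
    · left
      rw [hlt1 x y (lt_of_le_of_ne h hxy)]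
      linarith
    · right
      rw [hlt1 y x (lt_of_le_of_ne h hxy.symm)]
      linarith
    · have hs1 := hsum _ _ hxy
      have p1 : (ks Q).real {S | S (ι a) < S (ι b)} * N =
        ((Nat.card {σ : α ≃ Fin (Fintype.card α) // StrictMono ⇑σ ∧ σ a < σ b} : ℕ) : ℝ) := hprob a b
      have p2 : (ks Q).real {S | S (ι b) < S (ι a)} * N =
        ((Nat.card {σ : α ≃ Fin (Fintype.card α) // StrictMono ⇑σ ∧ σ b < σ a} : ℕ) : ℝ) := hprob b a
      by_cases hc : (1 / 2 - ε) * N ≤
          ((Nat.card {σ : α ≃ Fin (Fintype.card α) // StrictMono ⇑σ ∧ σ a < σ b} : ℕ) : ℝ)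
      · have h3 := hcon a b hc
        left
        rw [← p2] at h3
        have hN0 : 0 < N := by
          refine lt_of_le_of_ne (Nat.cast_nonneg _) (fun h => ?_)
          rw [← h, mul_zero, mul_zero] at h3
          exact lt_irrefl _ h3
        have h4 := lt_of_mul_lt_mul_right h3 hN0.le
        linarith
      · push Not at hc
        right
        rw [← p1] at hc
        have hN0 : 0 < N := by
          refine lt_of_le_of_ne (Nat.cast_nonneg _) (fun h => ?_)
          rw [← h, mul_zero, mul_zero] at hc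
          exact lt_irrefl _ hc
        have h4 := lt_of_mul_lt_mul_right hc hN0.le
        linarith
  obtain ⟨hV, hgap⟩ := hrig (ks Q) hks hbad core _ hcore (by
    intro x hx y hy
    refine le_trans ?_ (le_max_right _ _)
    have := hdiam x hx y hy
    gcongr)
  have key : ∀ a x1 : α, ¬ a ≤ x1 → ¬ x1 ≤ a → d (ks Q) (ι a) (ι x1) ≤ r := by
    intro a x1 h1 h2
    by_contra had
    push Not at had
    have hM : Λ' < |M (ks Q) (ι a) (ι x1)| := by
      by_contra hno
      push Not at hno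
      have h1 := hks.d_le (ι a) (ι x1)
      have h2 : Real.sqrt (V (ks Q) (ι a) (ι x1)) ≤ Real.sqrt (C * (1 + Λ')) := by
        apply Real.sqrt_le_sqrt
        refine (hV _ _).trans ?_
        gcongr
      linarith
    have hna : ¬ ι x1 ≤ ι a := fun h => h2 ((hι _ _).1 h)
    have hna' : ¬ ι a ≤ ι x1 := fun h => h1 ((hι _ _).1 h)
    rcases lt_abs.1 hM with h | h
    · exact hΛ hV hgap (ι x1) (ι a) hna (((le_max_left _ _).trans h.le))
    · rw [← M_symm] at h
      exact hΛ hV hgap (ι a) (ι x1) hna' (((le_max_left _ _).trans h.le))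
  have h5 := Nat.le_ceil (20 * (r + 1))
  rcases hyp with ⟨x1, s, hs, hW⟩ | ⟨x, y, hxy, hyx, hW⟩
  · have hsub : s.image ι ⊆ Finset.univ.filter (fun x : Q => d (ks Q) x (ι x1) ≤ r) := by
      intro q hq
      obtain ⟨a, ha, rfl⟩ := Finset.mem_image.1 hq
      simp only [Finset.mem_filter, Finset.mem_univ, true_and]
      exact key a x1 (hs a ha).2 (hs a ha).1
    have h1 := Finset.card_le_card hsub
    rw [Finset.card_image_of_injective _ hιinj] at h1
    have h2 := hks.card_le (ι x1) r hr0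
    have h3 : ((⌈20 * (r + 1)⌉₊ + 1 : ℕ) : ℝ) ≤ (s.card : ℝ) := by exact_mod_cast hW
    have h4 : (s.card : ℝ) ≤
      ((Finset.univ.filter (fun x : Q => d (ks Q) x (ι x1) ≤ r)).card : ℝ) := by exact_mod_cast h1
    push_cast at h3
    linarith
  · have h1 := key x y hxy hyx
    rw [hdist] at h1
    push_cast at hW
    linarith

end KS
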